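import Pool.Agent.Lib.MP_062a1c_lc.Zfc.Core

/-!
# MP_062a1c_lc: sigma-centeredness and cardinality of the interval algebra, the choice of `X`
-/

namespace Pool.Agent.Lib.MP_062a1c_lc.Zfc

open Cardinal Filter

variable {X : Set (ℕ → Bool × ℕ)}

/-- The eventually `A 0` word given by a finite list of letters. -/
def lw (X : Set (ℕ → Bool × ℕ)) (s : List Ltr) : Wd X :=
  ⟨fun i => (s[i]?).getD (.A 0), Or.inl ⟨s.length, fun m hm => by
    rw [List.getElem?_eq_none hm]; rfl⟩⟩

theorem exists_lw (f : Wd X) (n : ℕ) (h : ∀ m, n ≤ m → f.1 m = .A 0) : ∃ s, lw X s = f := by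
  refine ⟨(List.range n).map f.1, ?_⟩
  apply Wd.ext
  funext i
  simp only [lw]
  rcases lt_or_ge i n with hi | hi
  · simp [hi]
  · rw [List.getElem?_eq_none (by simpa using hi), h i hi]
    rfl

theorem exists_lw_trl (n : ℕ) (u : Wd X) (a : Ltr) : ∃ s, lw X s = trl n u a :=
  exists_lw _ (n + 1) fun _ hm => trl_gt (by omega)

/-- A letter larger than a letter of a sequence in `X`. -/
theorem exists_larger (p : Bool × ℕ) : ∃ a : Ltr, ltr p < a := by
  rcases p with ⟨_ | _, k⟩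
  · exact ⟨.A (k + 2), Ltr.A_lt_A.2 (by omega)⟩
  · exact ⟨.E k, Ltr.E_lt_E.2 (by omega)⟩

/-- The eventually `A 0` words meet every nonempty element of the interval algebra. -/
theorem exists_lw_mem (Y : Set (Wd X)) (hY : Y ∈ IntAlg (Wd X)) (hne : Y.Nonempty) :
    ∃ s, lw X s ∈ Y := by
  obtain ⟨t, rfl⟩ := hY
  obtain ⟨z, hz⟩ := hne
  simp only [Set.mem_iUnion] at hz
  obtain ⟨⟨a, b⟩, hp, hz⟩ := hz
  rcases z.2 with ⟨n, hn⟩ | ⟨x, hx, hzx⟩
  · obtain ⟨s, hs⟩ := exists_lw z n hn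
    refine ⟨s, ?_⟩
    simp only [Set.mem_iUnion]
    exact ⟨(a, b), hp, by rw [hs]; exact hz⟩
  · obtain ⟨m, hm⟩ : ∃ m, ∀ f : Wd X, Ag (m + 1) f z → (f : WithTop (Wd X)) < b := by
      induction b with
      | top => exact ⟨0, fun f _ => WithTop.coe_lt_top f⟩
      | coe v =>
        obtain ⟨m, hm, hl⟩ := Wd.lt_iff.1 (WithTop.coe_lt_coe.1 hz.2)
        refine ⟨m, fun f hf => WithTop.coe_lt_coe.2 ?_⟩
        refine lt_of_ag (n := m) (fun i hi => ?_) ?_
        · rw [hf i (by omega), hm i hi]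
        · rw [hf m (by omega)]; exact hl
    obtain ⟨c, hc⟩ := exists_larger (x (m + 1))
    obtain ⟨s, hs⟩ := exists_lw_trl (m + 1) z c
    refine ⟨s, ?_⟩
    simp only [Set.mem_iUnion]
    refine ⟨(a, b), hp, ?_⟩
    rw [hs]
    refine ⟨?_, hm _ (ag_trl _ _ _)⟩
    refine le_trans hz.1 (WithBot.coe_le_coe.2 (lt_of_ag (ag_trl _ _ _).symm ?_).le)
    rw [trl_self, hzx]
    exact hc

theorem sigmaCentered_intAlg (X : Set (ℕ → Bool × ℕ)) : SigmaCentered ↥(IntAlg (Wd X)) := by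
  obtain ⟨e, he⟩ := exists_surjective_nat (List Ltr)
  refine ⟨fun n => {Y | lw X (e n) ∈ Y.1}, ?_, ?_⟩
  · ext Y
    simp only [Set.mem_iUnion, Set.mem_ofPred_eq]
    constructor
    · rintro ⟨n, hn⟩ rfl
      exact hn
    · intro hne
      have hne' : Y.1.Nonempty := by
        rw [Set.nonempty_iff_ne_empty]
        intro h
        exact hne (Subtype.ext h)
      obtain ⟨s, hs⟩ := exists_lw_mem Y.1 Y.2 hne'
      obtain ⟨n, rfl⟩ := he s
      exact ⟨n, hs⟩
  · intro n s _ hs h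
    have key : ∀ t : Finset ↥(IntAlg (Wd X)), (t : Set ↥(IntAlg (Wd X))) ⊆
        {Y | lw X (e n) ∈ Y.1} → lw X (e n) ∈ (t.inf id).1 := by
      classical
      intro t
      induction t using Finset.induction_on with
      | empty =>
        intro _
        rw [Finset.inf_empty]
        exact Set.mem_univ _
      | insert Y t _ ih =>
        intro ht
        rw [Finset.inf_insert]
        refine ⟨ht (Finset.mem_coe.2 (Finset.mem_insert_self _ _)), ih fun Z hZ => ht ?_⟩
        exact Finset.mem_coe.2 (Finset.mem_insert_of_mem (Finset.mem_coe.1 hZ))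
    have := key s hs
    rw [h] at this
    exact this

theorem card_wd (X : Set (ℕ → Bool × ℕ)) : #(Wd X) ≤ max ℵ₀ #X := by
  have hsurj : Function.Surjective
      (fun t : List Ltr ⊕ X => Sum.elim (lw X) (fun x : X => wd x.1 x.2) t) := by
    intro f
    rcases f.2 with ⟨n, hn⟩ | ⟨x, hx, hfx⟩
    · obtain ⟨s, hs⟩ := exists_lw f n hn
      exact ⟨Sum.inl s, hs⟩
    · exact ⟨Sum.inr ⟨x, hx⟩, Wd.ext hfx.symm⟩
  refine le_trans (mk_le_of_surjective hsurj) ?_
  rw [mk_sum, lift_id, lift_id]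
  refine le_trans (add_le_max _ _) ?_
  have : #(List Ltr) ≤ ℵ₀ := mk_le_aleph0
  exact max_le (max_le (le_max_of_le_left this) (le_max_right _ _)) (le_max_left _ _)

theorem card_intAlg (L : Type) [LinearOrder L] : #↥(IntAlg L) ≤ max ℵ₀ #L := by
  classical
  have hsurj : Function.Surjective (fun s : Finset (WithBot L × WithTop L) =>
      (⟨⋃ p ∈ s, hoi p.1 p.2, ⟨s, rfl⟩⟩ : ↥(IntAlg L))) := by
    rintro ⟨Y, s, rfl⟩
    exact ⟨s, rfl⟩
  have h1 : #(WithBot L) ≤ max ℵ₀ #L := by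
    have : #(WithBot L) = #L + 1 := mk_option
    rw [this]
    refine le_trans (add_le_max _ _) ?_
    exact max_le (max_le (le_max_right _ _) (le_max_of_le_left one_le_aleph0)) (le_max_left _ _)
  have h2 : #(WithTop L) ≤ max ℵ₀ #L := by
    have : #(WithTop L) = #L + 1 := mk_option
    rw [this]
    refine le_trans (add_le_max _ _) ?_
    exact max_le (max_le (le_max_right _ _) (le_max_of_le_left one_le_aleph0)) (le_max_left _ _)
  have h3 : #(WithBot L × WithTop L) ≤ max ℵ₀ #L := by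
    rw [mk_prod, lift_id, lift_id]
    refine le_trans (mul_le_mul' h1 h2) ?_
    rw [mul_eq_self (le_max_left _ _)]
  refine le_trans (mk_le_of_surjective hsurj) ?_
  refine le_trans (mk_le_of_surjective (f := fun l : List (WithBot L × WithTop L) => l.toFinset)
    (fun t => ⟨t.toList, Finset.toList_toFinset t⟩)) ?_
  refine le_trans (mk_list_le_max _) ?_
  exact max_le (le_max_left _ _) h3

/-- A global pair `(S, g)` trapping all sequences of `X`. -/
def Trapped (X : Set (ℕ → Bool × ℕ)) : Prop :=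
  ∃ (S : List (Bool × ℕ) → Bool) (g : List (Bool × ℕ) → ℕ), ∀ x ∈ X, ∀ᶠ n in atTop,
      ¬ ((x n).1 = S (pre x n) ∧ g (pre x n) ≤ (x n).2)

theorem hia_le_of_not_trapped (X : Set (ℕ → Bool × ℕ)) (h : ¬ Trapped X) : hia ≤ max ℵ₀ #X := by
  have h1 : hia ≤ #↥(IntAlg (Wd X)) := by
    refine csInf_le' ⟨↥(IntAlg (Wd X)), inferInstance, ⟨Wd X, inferInstance, ⟨OrderIso.refl _⟩⟩,
      sigmaCentered_intAlg X, fun hh => h (core (hh (Alg X))), rfl⟩
  refine h1.trans ((card_intAlg _).trans ?_)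
  exact max_le (le_max_left _ _) (card_wd X)

/-! ### The choice of `X` -/

/-- The code of the initial segment `h|(n+1)`. -/
def code (h : ℕ → ℕ) (n : ℕ) : ℕ := Encodable.encode (pre h (n + 1))

/-- Decoding a natural number to a list. -/
def dec (v : ℕ) : List ℕ := (Encodable.decode v : Option (List ℕ)).getD []

theorem dec_code (h : ℕ → ℕ) (n : ℕ) : dec (code h n) = pre h (n + 1) := by
  simp [dec, code]

/-- The sequence built from `h` and `y`. -/
def mk (h : ℕ → ℕ) (y : ℕ → Bool) : ℕ → Bool × ℕ := fun n => (y n, code h n)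

/-- A bounding function. -/
def bd (G : ℕ → ℕ → ℕ) (c : ℕ) : ℕ → ℕ
  | 0 => c
  | n + 1 => max (bd G c n) ((Finset.range (bd G c n + 1)).sup (G n))

theorem le_bd (G : ℕ → ℕ → ℕ) (c n : ℕ) : c ≤ bd G c n := by
  induction n with
  | zero => exact le_rfl
  | succ n ih => exact le_trans ih (le_max_left _ _)

/-- For every `G` some `h` in an unbounded family satisfies `code h (n+1) > G n (code h n)`
infinitely often. -/
theorem exists_escape (F : Set (ℕ → ℕ)) (hF : ∀ g : ℕ → ℕ, ∃ f ∈ F, ¬ ∀ᶠ n in atTop, f n ≤ g n)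
    (G : ℕ → ℕ → ℕ) : ∃ h ∈ F, ¬ ∀ᶠ n in atTop, code h (n + 1) ≤ G n (code h n) := by
  by_contra hno
  push Not at hno
  set B : ℕ → ℕ := fun n => (Finset.range (n + 1)).sup (fun c => bd G c n) with hB
  obtain ⟨f, hf, hfn⟩ := hF (fun n => (Finset.range (B n + 1)).sup (fun v => (dec v).getD n 0))
  apply hfn
  obtain ⟨n0, hn0⟩ := eventually_atTop.1 (hno f hf)
  have hcode : ∀ n, n0 ≤ n → code f n ≤ bd G (code f n0) n := by
    intro n hn
    induction n, hn using Nat.le_induction with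
    | base => exact le_bd _ _ _
    | succ n hn ih =>
      refine le_trans (hn0 n hn) ?_
      refine le_trans ?_ (le_max_right _ _)
      exact Finset.le_sup (f := G n) (Finset.mem_range.2 (by omega))
  filter_upwards [eventually_ge_atTop (max n0 (code f n0))] with n hn
  have h1 : code f n ≤ B n := by
    refine le_trans (hcode n (le_trans (le_max_left _ _) hn)) ?_
    exact Finset.le_sup (f := fun c => bd G c n)
      (Finset.mem_range.2 (by have := le_trans (le_max_right _ _) hn; omega))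
  have h2 : f n = (dec (code f n)).getD n 0 := by
    rw [dec_code]
    simp [pre]
  rw [h2]
  exact Finset.le_sup (f := fun v => (dec v).getD n 0) (Finset.mem_range.2 (by omega))

/-- The list of pairs read off from `y|m` and a code of `h|m`. -/
def pairs (v : ℕ) (s : List Bool) : List (Bool × ℕ) :=
  (List.range s.length).map fun i => (s.getD i false, Encodable.encode ((dec v).take (i + 1)))

theorem pairs_eq (h : ℕ → ℕ) (y : ℕ → Bool) (n : ℕ) :
    pairs (code h n) (pre y (n + 1)) = pre (mk h y) (n + 1) := by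
  rw [pairs, pre_length]
  apply List.map_congr_left
  intro i hi
  rw [List.mem_range] at hi
  rw [dec_code]
  have h1 : (pre y (n + 1)).getD i false = y i := by
    simp [pre, hi]
  have h2 : (pre h (n + 1)).take (i + 1) = pre h (i + 1) := by
    simp only [pre]
    rw [← List.map_take, List.take_range, min_eq_left (by omega)]
  rw [h1, h2]
  rfl

theorem not_trapped (F : Set (ℕ → ℕ)) (hF : ∀ g : ℕ → ℕ, ∃ f ∈ F, ¬ ∀ᶠ n in atTop, f n ≤ g n)
    (Y : Set (ℕ → Bool)) (hY : ¬ Predicted Y) :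
    ¬ Trapped {x | ∃ h ∈ F, ∃ y ∈ Y, x = mk h y} := by
  classical
  rintro ⟨S, g, hSg⟩
  -- all lists of booleans of a given length
  have hlist : ∀ n : ℕ, ∃ T : Finset (List Bool), ∀ y : ℕ → Bool, pre y n ∈ T := by
    intro n
    refine ⟨(Finset.univ : Finset (Fin n → Bool)).image List.ofFn, fun y => ?_⟩
    rw [Finset.mem_image]
    refine ⟨fun i => y i, Finset.mem_univ _, ?_⟩
    rw [pre, List.ofFn_eq_map]
    apply List.ext_getElem
    · simp
    · intro i h1 h2
      simp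
  choose T hT using hlist
  obtain ⟨h, hh, hesc⟩ := exists_escape F hF
    (fun n v => (T (n + 1)).sup fun s => g (pairs v s))
  rw [not_eventually] at hesc
  apply hY
  refine ⟨{m | ∃ n, m = n + 1 ∧ ¬ code h (n + 1) ≤ (T (n + 1)).sup fun s => g (pairs (code h n) s)},
    fun s => ! S (pairs (code h (s.length - 1)) s), ?_, ?_⟩
  · rw [Set.infinite_iff_exists_gt]
    intro a
    obtain ⟨n, hn, hn'⟩ := (frequently_atTop.1 hesc) a
    exact ⟨n + 1, ⟨n, rfl, hn'⟩, by omega⟩
  · intro y hy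
    filter_upwards [hSg (mk h y) ⟨h, hh, y, hy, rfl⟩] with m hm
    rintro ⟨n, rfl, hn⟩
    rw [not_le] at hn
    rw [pre_length, Nat.add_sub_cancel, pairs_eq]
    have hg : g (pre (mk h y) (n + 1)) ≤ (mk h y (n + 1)).2 := by
      refine le_trans ?_ hn.le
      rw [← pairs_eq]
      exact Finset.le_sup (f := fun s => g (pairs (code h n) s)) (hT (n + 1) y)
    have hne : (mk h y (n + 1)).1 ≠ S (pre (mk h y) (n + 1)) := fun he => hm ⟨he, hg⟩
    have h1 : (mk h y (n + 1)).1 = y (n + 1) := rfl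
    rw [h1] at hne
    cases hyn : y (n + 1) <;> cases hS : S (pre (mk h y) (n + 1)) <;> simp_all

theorem aleph0_le_bNum : ℵ₀ ≤ bNum := by
  apply le_csInf
  · refine ⟨_, Set.univ, fun g => ⟨fun n => g n + 1, Set.mem_univ _, ?_⟩, rfl⟩
    intro h
    obtain ⟨n, hn⟩ := h.exists
    exact absurd hn (Nat.not_succ_le_self _)
  · rintro _ ⟨F, hF, rfl⟩
    by_contra hlt
    rw [not_le] at hlt
    have hfin : F.Finite := lt_aleph0_iff_set_finite.1 hlt
    obtain ⟨f, hf, hfn⟩ := hF (fun n => hfin.toFinset.sup fun f => f n)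
    apply hfn
    filter_upwards with n
    exact Finset.le_sup (f := fun f : ℕ → ℕ => f n) (hfin.mem_toFinset.2 hf)

theorem hia_le_max (hne : ∃ Y : Set (ℕ → Bool), ¬ Predicted Y) : hia ≤ max bNum eTwo := by
  obtain ⟨F, hF, hFc⟩ : ∃ F : Set (ℕ → ℕ),
      (∀ g : ℕ → ℕ, ∃ f ∈ F, ¬ ∀ᶠ n in atTop, f n ≤ g n) ∧ #F = bNum := by
    apply csInf_mem (s := {c | ∃ F : Set (ℕ → ℕ),
      (∀ g : ℕ → ℕ, ∃ f ∈ F, ¬ ∀ᶠ n in atTop, f n ≤ g n) ∧ #F = c})
    refine ⟨_, Set.univ, fun g => ⟨fun n => g n + 1, Set.mem_univ _, ?_⟩, rfl⟩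
    intro h
    obtain ⟨n, hn⟩ := h.exists
    exact absurd hn (Nat.not_succ_le_self _)
  obtain ⟨Y, hY, hYc⟩ : ∃ Y : Set (ℕ → Bool), ¬ Predicted Y ∧ #Y = eTwo := by
    apply csInf_mem (s := {c | ∃ Y : Set (ℕ → Bool), ¬ Predicted Y ∧ #Y = c})
    obtain ⟨Y, hY⟩ := hne
    exact ⟨_, Y, hY, rfl⟩
  refine (hia_le_of_not_trapped _ (not_trapped F hF Y hY)).trans ?_
  refine max_le (le_max_of_le_left aleph0_le_bNum) ?_
  have hsurj : Function.Surjective (fun p : F × Y =>
      (⟨mk p.1.1 p.2.1, p.1.1, p.1.2, p.2.1, p.2.2, rfl⟩ :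
        {x | ∃ h ∈ F, ∃ y ∈ Y, x = mk h y})) := by
    rintro ⟨x, h, hh, y, hy, rfl⟩
    exact ⟨(⟨h, hh⟩, ⟨y, hy⟩), rfl⟩
  refine le_trans (mk_le_of_surjective hsurj) ?_
  rw [mk_prod, lift_id, lift_id, hFc, hYc]
  refine (mul_le_max _ _).trans ?_
  exact max_le le_rfl (le_max_of_le_left aleph0_le_bNum)

end Pool.Agent.Lib.MP_062a1c_lc.Zfc
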