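import Pool.Agent.Lib.MP_062a1c_lc.Zfc.Words

/-!
# MP_062a1c_lc: if the pinched algebra is an interval algebra then the sequences of `X` are
trapped by a global pair `(S, g)`
-/

namespace Pool.Agent.Lib.MP_062a1c_lc.Zfc

open Cardinal Filter

variable {X : Set (ℕ → Bool × ℕ)}

theorem iff_pos {q r : Prop} (h : r) : (q ↔ r) ↔ q := ⟨fun h' => h'.2 h, fun h' => ⟨fun _ => h, fun _ => h'⟩⟩

theorem iff_neg {q r : Prop} (h : ¬ r) : (q ↔ r) ↔ ¬ q :=
  ⟨fun h' hq => h (h'.1 hq), fun h' => ⟨fun hq => absurd hq h', fun hr => absurd hr h⟩⟩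

/-- A chain of continuous sets that separates: every Boolean-closed property that holds on the
chain holds for all continuous elements of the interval algebra. -/
structure SepChain (X : Set (ℕ → Bool × ℕ)) where
  D : Set (Set (Wd X))
  chain : ∀ Y ∈ D, ∀ Z ∈ D, Y ⊆ Z ∨ Z ⊆ Y
  mem : ∀ Y ∈ D, Y ∈ IntAlg (Wd X)
  cont : ∀ Y ∈ D, ∀ (n : ℕ) (u : Wd X), ∃ (g : ℕ) (p : Prop), Cont Y n u g p
  sep : ∀ P : Set (Wd X) → Prop, P ∅ → (∀ Y Z, P Y → P Z → P (Y ∪ Z)) → (∀ Y, P Y → P Yᶜ) →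
    (∀ Y ∈ D, P Y) → ∀ Y ∈ IntAlg (Wd X),
      (∀ (n : ℕ) (u : Wd X), ∃ (g : ℕ) (p : Prop), Cont Y n u g p) → P Y

theorem exists_sepChain (h : IsIntervalAlgebra ↥(Alg X)) : Nonempty (SepChain X) := by
  obtain ⟨L, _, ⟨e⟩⟩ := h
  refine ⟨⟨{Y | ∃ a : L, Y = (e.symm ⟨Set.Iio a, iio_mem a⟩).1.1}, ?_, ?_, ?_, ?_⟩⟩
  · rintro _ ⟨a, rfl⟩ _ ⟨b, rfl⟩
    rcases le_total a b with hab | hab
    · left
      have : e.symm ⟨Set.Iio a, iio_mem a⟩ ≤ e.symm ⟨Set.Iio b, iio_mem b⟩ :=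
        e.symm.monotone (show (⟨Set.Iio a, iio_mem a⟩ : ↥(IntAlg L)) ≤ ⟨Set.Iio b, iio_mem b⟩ from
          Set.Iio_subset_Iio hab)
      exact this
    · right
      have : e.symm ⟨Set.Iio b, iio_mem b⟩ ≤ e.symm ⟨Set.Iio a, iio_mem a⟩ :=
        e.symm.monotone (show (⟨Set.Iio b, iio_mem b⟩ : ↥(IntAlg L)) ≤ ⟨Set.Iio a, iio_mem a⟩ from
          Set.Iio_subset_Iio hab)
      exact this
  · rintro _ ⟨a, rfl⟩
    exact (e.symm ⟨Set.Iio a, iio_mem a⟩).1.2
  · rintro _ ⟨a, rfl⟩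
    exact (e.symm ⟨Set.Iio a, iio_mem a⟩).2
  · intro P h0 hu hc hD Y hY hcont
    have := sep e (fun Z => P Z.1.1) h0 (fun a b ha hb => hu _ _ ha hb) (fun a ha => hc _ ha)
      (fun a => hD _ ⟨a, rfl⟩) ⟨⟨Y, hY⟩, hcont⟩
    exact this

variable (𝒟 : SepChain X)

/-- For `x ∈ X` some member of the chain is, on a cone around the word of `x`, one of the two
sides of `x`. -/
theorem exists_side (x : ℕ → Bool × ℕ) (hx : x ∈ X) :
    ∃ Y ∈ 𝒟.D, ∃ (N : ℕ) (q : Prop), ∀ f, Ag N f (wd x hx) → (f ∈ Y ↔ (q ↔ wd x hx ≤ f)) := by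
  by_contra hno
  push Not at hno
  -- the property `R`
  have hR : ∃ (n : ℕ) (c : Prop), ∀ f, Ag n f (wd x hx) → (f ∈ Set.Iio (wd x hx) ↔ c) := by
    apply 𝒟.sep (fun Y => ∃ (n : ℕ) (c : Prop), ∀ f, Ag n f (wd x hx) → (f ∈ Y ↔ c))
    · exact ⟨0, False, fun f _ => by simp⟩
    · rintro Y Z ⟨n, c, h⟩ ⟨n', c', h'⟩
      refine ⟨max n n', c ∨ c', fun f hf => ?_⟩
      rw [Set.mem_union, h f (hf.mono (le_max_left _ _)), h' f (hf.mono (le_max_right _ _))]
    · rintro Y ⟨n, c, h⟩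
      exact ⟨n, ¬ c, fun f hf => by rw [Set.mem_compl_iff, h f hf]⟩
    · intro Y hY
      obtain ⟨n, l, r, h⟩ := loc (wd x hx) Y (𝒟.mem Y hY)
      by_cases hlr : l ↔ r
      · refine ⟨n, l, fun f hf => ?_⟩
        rcases lt_or_ge f (wd x hx) with hlt | hle
        · exact (h f hf).1 hlt
        · rw [(h f hf).2 hle, hlr]
      · exfalso
        obtain ⟨f, hf, hne⟩ := hno Y hY n r
        rcases lt_or_ge f (wd x hx) with hlt | hle
        · have h1 := (h f hf).1 hlt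
          have h2 : ¬ wd x hx ≤ f := not_le.2 hlt
          clear hno h
          tauto
        · have h1 := (h f hf).2 hle
          have h2 : ¬ f < wd x hx := not_lt.2 hle
          clear hno h
          tauto
    · exact iio_mem _
    · exact cont_iio x hx
  obtain ⟨n, c, h⟩ := hR
  have h1 := h (wd x hx) (Ag.refl _ _)
  have hag : Ag n (trl n (wd x hx) ((wd x hx).1 n)) (wd x hx) := ag_trl _ _ _
  have h2 := h _ hag
  have hlt := trl_lt_wd x hx n
  simp only [Set.mem_Iio] at h1 h2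
  have h3 : ¬ (wd x hx < wd x hx) := lt_irrefl _
  exact h3 (h1.2 (h2.1 hlt))

/-- For every node `u|n` some member of the chain has different values near the node point and at
`u|n ⌢ C 0`. -/
theorem exists_node (n : ℕ) (u : Wd X) :
    ∃ Y ∈ 𝒟.D, ∃ (g : ℕ) (p : Prop), Cont Y n u g p ∧ ¬ (p ↔ trl n u (.C 0) ∈ Y) := by
  by_contra hno
  push Not at hno
  have hQ : ∃ (g : ℕ) (p : Prop), Cont (coneC n u) n u g p ∧
      (p ↔ trl n u (.C 0) ∈ coneC n u) := by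
    apply 𝒟.sep (fun Y => ∃ (g : ℕ) (p : Prop), Cont Y n u g p ∧ (p ↔ trl n u (.C 0) ∈ Y))
    · exact ⟨0, False, fun f _ j _ _ => by simp, by simp⟩
    · rintro Y Z ⟨g, p, h, hp⟩ ⟨g', p', h', hp'⟩
      exact ⟨_, _, h.union h', by rw [hp, hp']; rfl⟩
    · rintro Y ⟨g, p, h, hp⟩
      exact ⟨_, _, h.compl, by rw [hp]; rfl⟩
    · intro Y hY
      obtain ⟨g, p, h⟩ := 𝒟.cont Y hY n u
      exact ⟨g, p, h, hno Y hY g p h⟩
    · exact coneC_mem n u
    · exact cont_coneC n u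
  obtain ⟨g, p, h, hp⟩ := hQ
  have hmem : trl n u (.C 0) ∈ coneC n u := ⟨ag_trl _ _ _, trl_self⟩
  have hp' : p := hp.2 hmem
  have := (h (trl n u (.A g)) (ag_trl _ _ _) g le_rfl (Or.inl trl_self)).2 hp'
  have h2 := this.2
  rw [trl_self] at h2
  exact Ltr.noConfusion h2

/-- Main comparison: near the node, the side set of `x` has the same value at `C 0` as the
separating set of the node. -/
theorem compare {x : ℕ → Bool × ℕ} {hx : x ∈ X} {Y Z : Set (Wd X)} (hY : Y ∈ 𝒟.D) (hZ : Z ∈ 𝒟.D)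
    {N n g : ℕ} {q p : Prop} (hq : ∀ f, Ag N f (wd x hx) → (f ∈ Y ↔ (q ↔ wd x hx ≤ f)))
    (hN : N ≤ n) (hp : Cont Z n (wd x hx) g p) (hpn : ¬ (p ↔ trl n (wd x hx) (.C 0) ∈ Z))
    (hg : g ≤ (x n).2 + 1) :
    trl n (wd x hx) (.C 0) ∈ Y ↔ trl n (wd x hx) (.C 0) ∈ Z := by
  set w := wd x hx with hw
  have hidx : w.1 n = .A ((x n).2 + 1) ∨ w.1 n = .C ((x n).2 + 1) ∨ w.1 n = .E ((x n).2 + 1) := by
    have h : w.1 n = ltr (x n) := rfl
    rw [h]
    rcases x n with ⟨_ | _, k⟩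
    · exact Or.inl rfl
    · exact Or.inr (Or.inr rfl)
  -- the two test words
  set t := trl n w (w.1 n) with ht
  have htag : Ag n t w := ag_trl _ _ _
  have htlt : t < w := trl_lt_wd x hx n
  have hwZ : w ∈ Z ↔ p := hp w (Ag.refl _ _) _ hg hidx
  have htZ : t ∈ Z ↔ p := hp t htag _ hg (by rw [ht, trl_self]; exact hidx)
  have hwY : w ∈ Y ↔ q := by
    rw [hq w (Ag.refl _ _)]
    exact iff_pos le_rfl
  have htY : t ∈ Y ↔ ¬ q := by
    rw [hq t (htag.mono hN)]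
    exact iff_neg (not_le.2 htlt)
  constructor
  · intro hcY
    by_contra hcZ
    have hp' : p := by
      by_contra h
      exact hpn ⟨fun h' => absurd h' h, fun h' => absurd h' hcZ⟩
    rcases 𝒟.chain Y hY Z hZ with h | h
    · exact hcZ (h hcY)
    · exact htY.1 (h (htZ.2 hp')) (hwY.1 (h (hwZ.2 hp')))
  · intro hcZ
    by_contra hcY
    have hp' : ¬ p := fun h => hpn ⟨fun _ => hcZ, fun _ => h⟩
    rcases 𝒟.chain Y hY Z hZ with h | h
    · by_cases hqq : q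
      · exact hp' (hwZ.1 (h (hwY.2 hqq)))
      · exact hp' (htZ.1 (h (htY.2 hqq)))
    · exact hcY (h hcZ)

/-- Two sequences of different types through the same node, both beyond the threshold, are
impossible. -/
theorem clash {x y : ℕ → Bool × ℕ} {hx : x ∈ X} {hy : y ∈ X} {Y Y' Z : Set (Wd X)}
    (hY : Y ∈ 𝒟.D) (hY' : Y' ∈ 𝒟.D) (hZ : Z ∈ 𝒟.D)
    {N N' n g : ℕ} {q q' p : Prop}
    (hq : ∀ f, Ag N f (wd x hx) → (f ∈ Y ↔ (q ↔ wd x hx ≤ f)))
    (hq' : ∀ f, Ag N' f (wd y hy) → (f ∈ Y' ↔ (q' ↔ wd y hy ≤ f)))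
    (hN : N ≤ n) (hN' : N' ≤ n) (hxy : Ag n (wd x hx) (wd y hy))
    (hp : Cont Z n (wd x hx) g p) (hpn : ¬ (p ↔ trl n (wd x hx) (.C 0) ∈ Z))
    (hg : g ≤ (x n).2 + 1) (hg' : g ≤ (y n).2 + 1)
    (h1 : (x n).1 = false) (h2 : (y n).1 = true) : False := by
  have e1 := compare 𝒟 hY hZ hq hN hp hpn hg
  have hp2 : Cont Z n (wd y hy) g p := fun f hf => hp f (hf.trans hxy.symm)
  have htr : trl n (wd y hy) (.C 0) = trl n (wd x hx) (.C 0) := (trl_congr hxy _).symm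
  have e2 := compare 𝒟 hY' hZ hq' hN' hp2 (by rw [htr]; exact hpn) hg'
  rw [htr] at e2
  set w := wd x hx with hw
  set v := wd y hy with hv
  set c := trl n w (.C 0) with hc
  have hwn : w.1 n = .A ((x n).2 + 1) := by
    have h : w.1 n = ltr (x n) := rfl
    rw [h]
    rcases hxn : x n with ⟨b, k⟩
    rw [hxn] at h1
    simp only at h1
    subst h1
    rfl
  have hvn : v.1 n = .E ((y n).2 + 1) := by
    have h : v.1 n = ltr (y n) := rfl
    rw [h]
    rcases hyn : y n with ⟨b, k⟩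
    rw [hyn] at h2
    simp only at h2
    subst h2
    rfl
  have hcw : w < c := lt_of_ag (ag_trl _ _ _).symm (by rw [hwn, hc, trl_self]; exact Ltr.A_lt_C)
  have hcv : c < v := lt_of_ag ((ag_trl _ _ _).trans hxy)
    (by rw [hvn, hc, trl_self]; exact Ltr.C_lt_E)
  have hcY : c ∈ Y ↔ q := by
    rw [hq c ((ag_trl _ _ _).mono hN)]
    exact iff_pos hcw.le
  have hcY' : c ∈ Y' ↔ ¬ q' := by
    rw [hq' c (((ag_trl _ _ _).trans hxy).mono hN')]
    exact iff_neg (not_le.2 hcv)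
  set t := trl n w (w.1 n) with ht
  have htag : Ag n t w := ag_trl _ _ _
  have htlt : t < w := trl_lt_wd x hx n
  have htY : t ∈ Y ↔ ¬ q := by
    rw [hq t (htag.mono hN)]
    exact iff_neg (not_le.2 htlt)
  have htY' : t ∈ Y' ↔ ¬ q' := by
    rw [hq' t ((htag.trans hxy).mono hN')]
    exact iff_neg (not_le.2 (htlt.trans (hcw.trans hcv)))
  have hvY : v ∈ Y ↔ q := by
    rw [hq v (hxy.symm.mono hN)]
    exact iff_pos (hcw.trans hcv).le
  have hvY' : v ∈ Y' ↔ q' := by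
    rw [hq' v (Ag.refl _ _)]
    exact iff_pos le_rfl
  have hqq : q ↔ ¬ q' := by rw [← hcY, ← hcY', e1, e2]
  by_cases hqt : q
  · have hq'f : ¬ q' := hqq.1 hqt
    rcases 𝒟.chain Y hY Y' hY' with h | h
    · exact hq'f (hvY'.1 (h (hvY.2 hqt)))
    · exact htY.1 (h (htY'.2 hq'f)) hqt
  · have hq't : q' := by
      by_contra h
      exact hqt (hqq.2 h)
    rcases 𝒟.chain Y hY Y' hY' with h | h
    · exact htY'.1 (h (htY.2 hqt)) hq't
    · exact hqt (hvY.1 (h (hvY'.2 hq't)))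

theorem pre_length {α : Type*} (x : ℕ → α) (n : ℕ) : (pre x n).length = n := by
  simp [pre]

theorem pre_getElem? {α : Type*} (x : ℕ → α) {n i : ℕ} (h : i < n) :
    (pre x n)[i]? = some (x i) := by
  simp [pre, h]

/-- The word attached to a finite list of codes. -/
def uw (X : Set (ℕ → Bool × ℕ)) (s : List (Bool × ℕ)) : Wd X :=
  ⟨fun i => (s[i]?).elim (.A 0) ltr, Or.inl ⟨s.length, fun m hm => by
    rw [List.getElem?_eq_none hm]; rfl⟩⟩

theorem ag_uw (x : ℕ → Bool × ℕ) (hx : x ∈ X) (n : ℕ) : Ag n (uw X (pre x n)) (wd x hx) := by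
  intro i hi
  simp only [uw, wd]
  rw [pre_getElem? x hi]
  rfl

/-- **Core theorem.** -/
theorem core (h : IsIntervalAlgebra ↥(Alg X)) :
    ∃ (S : List (Bool × ℕ) → Bool) (g : List (Bool × ℕ) → ℕ), ∀ x ∈ X, ∀ᶠ n in atTop,
      ¬ ((x n).1 = S (pre x n) ∧ g (pre x n) ≤ (x n).2) := by
  classical
  obtain ⟨𝒟⟩ := exists_sepChain h
  have hside := fun (x : ℕ → Bool × ℕ) (hx : x ∈ X) => exists_side 𝒟 x hx
  choose Y hY N q hq using hside
  have hnode := fun (s : List (Bool × ℕ)) => exists_node 𝒟 s.length (uw X s)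
  choose Z hZ g p hp hpn using hnode
  refine ⟨fun s => decide (∃ (x : ℕ → Bool × ℕ) (hx : x ∈ X), N x hx ≤ s.length ∧
    pre x s.length = s ∧ (x s.length).1 = false ∧ g s ≤ (x s.length).2 + 1), g, ?_⟩
  intro y hy
  filter_upwards [eventually_ge_atTop (N y hy)] with n hn
  rintro ⟨hS, hg⟩
  have hlen := pre_length y n
  cases hyn : (y n).1 with
  | false =>
    rw [hyn] at hS
    exact of_decide_eq_false hS.symm ⟨y, hy, by rw [hlen]; exact hn, by rw [hlen],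
      by rw [hlen]; exact hyn, by rw [hlen]; omega⟩
  | true =>
    rw [hyn] at hS
    obtain ⟨x, hx, h1, h2, h3, h4⟩ := of_decide_eq_true hS.symm
    rw [hlen] at h1 h2 h3 h4
    have hux : Ag n (uw X (pre y n)) (wd x hx) := by
      rw [← h2]
      exact ag_uw x hx n
    have huy : Ag n (uw X (pre y n)) (wd y hy) := ag_uw y hy n
    have hp' : Cont (Z (pre y n)) n (wd x hx) (g (pre y n)) (p (pre y n)) := by
      have h0 := hp (pre y n)
      rw [hlen] at h0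
      exact fun f hf => h0 f (hf.trans hux.symm)
    have hpn' : ¬ (p (pre y n) ↔ trl n (wd x hx) (.C 0) ∈ Z (pre y n)) := by
      have h0 := hpn (pre y n)
      rw [hlen, trl_congr hux] at h0
      exact h0
    exact clash 𝒟 (hY x hx) (hY y hy) (hZ (pre y n)) (hq x hx) (hq y hy) h1 hn
      (hux.symm.trans huy) hp' hpn' h4 (by omega) h3 hyn

end Pool.Agent.Lib.MP_062a1c_lc.Zfc
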