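import Mathlib

/-!
# MP_062a1c_lc: the definitions (interval algebras, hereditary, sigma-centered, cardinals)
-/

namespace Pool.Agent.Lib.MP_062a1c_lc.Zfc

open Cardinal Filter MeasureTheory

/-- The half-open interval `[a, b)` of `L`; `a` may be `-∞` (i.e. `⊥`) and `b` may be `∞`
(i.e. `⊤`). -/
def hoi {L : Type*} [LinearOrder L] (a : WithBot L) (b : WithTop L) : Set L :=
  {x | a ≤ (x : WithBot L) ∧ (x : WithTop L) < b}

section closure
variable {L : Type*} [LinearOrder L]

/-- `Y` is a finite union of half-open intervals of `L`. -/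
def IsFinUnion (Y : Set L) : Prop :=
  ∃ s : Finset (WithBot L × WithTop L), Y = ⋃ p ∈ s, hoi p.1 p.2

theorem isFinUnion_empty : IsFinUnion (∅ : Set L) := ⟨∅, by simp⟩

theorem isFinUnion_hoi (a : WithBot L) (b : WithTop L) : IsFinUnion (hoi a b) :=
  ⟨{(a, b)}, by simp⟩

theorem isFinUnion_union {Y Z : Set L} (hY : IsFinUnion Y) (hZ : IsFinUnion Z) :
    IsFinUnion (Y ∪ Z) := by
  classical
  obtain ⟨s, rfl⟩ := hY
  obtain ⟨t, rfl⟩ := hZ
  refine ⟨s ∪ t, ?_⟩
  rw [Finset.set_biUnion_union]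

theorem hoi_inter (a a' : WithBot L) (b b' : WithTop L) :
    hoi a b ∩ hoi a' b' = hoi (max a a') (min b b') := by
  ext x
  simp only [hoi, Set.mem_inter_iff, Set.mem_ofPred_eq, max_le_iff, lt_min_iff]
  tauto

theorem isFinUnion_hoi_compl (a : WithBot L) (b : WithTop L) : IsFinUnion (hoi a b)ᶜ := by
  have h1 : IsFinUnion ({x : L | (x : WithBot L) < a}) := by
    induction a with
    | bot =>
      have : {x : L | (x : WithBot L) < ⊥} = ∅ := by ext x; simp
      rw [this]; exact isFinUnion_empty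
    | coe a =>
      have : {x : L | (x : WithBot L) < a} = hoi ⊥ (a : WithTop L) := by ext x; simp [hoi]
      rw [this]; exact isFinUnion_hoi _ _
  have h2 : IsFinUnion ({x : L | b ≤ (x : WithTop L)}) := by
    induction b with
    | top =>
      have : {x : L | ⊤ ≤ (x : WithTop L)} = ∅ := by ext x; simp
      rw [this]; exact isFinUnion_empty
    | coe b =>
      have : {x : L | (b : WithTop L) ≤ x} = hoi (b : WithBot L) ⊤ := by ext x; simp [hoi]
      rw [this]; exact isFinUnion_hoi _ _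
  have h : (hoi a b)ᶜ = {x : L | (x : WithBot L) < a} ∪ {x : L | b ≤ (x : WithTop L)} := by
    ext x
    simp only [hoi, Set.mem_compl_iff, Set.mem_ofPred_eq, not_and_or, not_le, not_lt, Set.mem_union]
  rw [h]
  exact isFinUnion_union h1 h2

theorem isFinUnion_inter {Y Z : Set L} (hY : IsFinUnion Y) (hZ : IsFinUnion Z) :
    IsFinUnion (Y ∩ Z) := by
  classical
  obtain ⟨s, rfl⟩ := hY
  obtain ⟨t, rfl⟩ := hZ
  refine ⟨(s ×ˢ t).image fun p => (max p.1.1 p.2.1, min p.1.2 p.2.2), ?_⟩
  ext x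
  simp only [Set.mem_inter_iff, Set.mem_iUnion, Finset.mem_image, Finset.mem_product]
  constructor
  · rintro ⟨⟨p, hp, hx⟩, ⟨q, hq, hy⟩⟩
    refine ⟨_, ⟨(p, q), ⟨hp, hq⟩, rfl⟩, ?_⟩
    rw [← hoi_inter]; exact ⟨hx, hy⟩
  · rintro ⟨_, ⟨⟨p, q⟩, ⟨hp, hq⟩, rfl⟩, hx⟩
    rw [← hoi_inter] at hx
    exact ⟨⟨p, hp, hx.1⟩, ⟨q, hq, hx.2⟩⟩

theorem isFinUnion_compl {Y : Set L} (hY : IsFinUnion Y) : IsFinUnion Yᶜ := by
  classical
  obtain ⟨s, rfl⟩ := hY
  induction s using Finset.induction_on with
  | empty =>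
    have : ((⋃ p ∈ (∅ : Finset (WithBot L × WithTop L)), hoi p.1 p.2)ᶜ : Set L) = hoi ⊥ ⊤ := by
      ext x; simp [hoi]
    rw [this]; exact isFinUnion_hoi _ _
  | insert a s _ ih =>
    rw [Finset.set_biUnion_insert, Set.compl_union]
    exact isFinUnion_inter (isFinUnion_hoi_compl _ _) ih

end closure

/-- The interval algebra of a linear order `L`: the Boolean algebra of all finite unions of
half-open intervals of `L`. -/
def IntAlg (L : Type*) [LinearOrder L] : BooleanSubalgebra (Set L) where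
  carrier := {Y | IsFinUnion Y}
  supClosed' := fun _ hY _ hZ => isFinUnion_union hY hZ
  infClosed' := fun _ hY _ hZ => isFinUnion_inter hY hZ
  compl_mem' := fun hY => isFinUnion_compl hY
  bot_mem' := isFinUnion_empty

/-- A Boolean algebra is an interval algebra if it is isomorphic to the interval algebra of some
linear order. -/
def IsIntervalAlgebra (B : Type) [BooleanAlgebra B] : Prop :=
  ∃ (L : Type) (_ : LinearOrder L), Nonempty (B ≃o ↥(IntAlg L))

/-- Every subalgebra of `B` is an interval algebra. -/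
def Hereditary (B : Type) [BooleanAlgebra B] : Prop :=
  ∀ A : BooleanSubalgebra B, IsIntervalAlgebra ↥A

/-- `B ∖ {0}` is a countable union of centered families. -/
def SigmaCentered (B : Type) [BooleanAlgebra B] : Prop :=
  ∃ F : ℕ → Set B, (⋃ n, F n) = {b | b ≠ ⊥} ∧
    ∀ n, ∀ s : Finset B, s.Nonempty → (s : Set B) ⊆ F n → s.inf id ≠ ⊥

/-- The least cardinality of a sigma-centered interval algebra that is not hereditary. -/
noncomputable def hia : Cardinal.{0} :=
  sInf {c | ∃ (B : Type) (_ : BooleanAlgebra B),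
    IsIntervalAlgebra B ∧ SigmaCentered B ∧ ¬ Hereditary B ∧ #B = c}

/-- The bounding number. -/
noncomputable def bNum : Cardinal.{0} :=
  sInf {c | ∃ F : Set (ℕ → ℕ), (∀ g : ℕ → ℕ, ∃ f ∈ F, ¬ ∀ᶠ n in atTop, f n ≤ g n) ∧ #F = c}

/-- The dominating number. -/
noncomputable def dNum : Cardinal.{0} :=
  sInf {c | ∃ F : Set (ℕ → ℕ), (∀ g : ℕ → ℕ, ∃ f ∈ F, ∀ᶠ n in atTop, g n ≤ f n) ∧ #F = c}

/-- The least cardinality of a non-meager set of reals. -/
noncomputable def nonM : Cardinal.{0} :=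
  sInf {c | ∃ X : Set ℝ, ¬ IsMeagre X ∧ #X = c}

/-- The least cardinality of a set of reals that is not Lebesgue null. -/
noncomputable def nonN : Cardinal.{0} :=
  sInf {c | ∃ X : Set ℝ, volume X ≠ 0 ∧ #X = c}

/-- The initial segment `(x 0, ..., x (n-1))` of a sequence, as a list. -/
def pre {α : Type*} (x : ℕ → α) (n : ℕ) : List α := (List.range n).map x

/-- `Y` is predicted by one (adaptive) predictor: there are an infinite set `D` of positions and a
rule `π` such that every `y ∈ Y` satisfies `y n = π (y 0, ..., y (n-1))` for all but finitely many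
`n ∈ D`. -/
def Predicted (Y : Set (ℕ → Bool)) : Prop :=
  ∃ (D : Set ℕ) (π : List Bool → Bool), D.Infinite ∧
    ∀ y ∈ Y, ∀ᶠ n in atTop, n ∈ D → y n = π (pre y n)

/-- The evasion number for `2` (Blass); the least cardinality of a set of 0-1-sequences that is not
predicted by one predictor. -/
noncomputable def eTwo : Cardinal.{0} :=
  sInf {c | ∃ Y : Set (ℕ → Bool), ¬ Predicted Y ∧ #Y = c}

end Pool.Agent.Lib.MP_062a1c_lc.Zfc
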