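import Pool.Agent.Lib.MP_062a1c_lc.Zfc.Defs

/-!
# MP_062a1c_lc: the set of reals whose binary digits are predicted by a given predictor is null
-/

namespace Pool.Agent.Lib.MP_062a1c_lc.Zfc

open Cardinal Filter MeasureTheory Topology

/-- The binary digits of a real number (after the binary point). -/
noncomputable def dg (r : ℝ) (n : ℕ) : Bool := decide (⌊(2 : ℝ) ^ (n + 1) * r⌋ % 2 = 1)

theorem floor_half (x : ℝ) : ⌊x⌋ = ⌊2 * x⌋ / 2 := by
  have h1 := Int.floor_le (2 * x)
  have h2 := Int.lt_floor_add_one (2 * x)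
  rw [Int.floor_eq_iff]
  set m := ⌊2 * x⌋
  have h3 : 2 * (m / 2) ≤ m := by omega
  have h4 : m + 1 ≤ 2 * (m / 2) + 2 := by omega
  have h3' : (2 * ((m / 2 : ℤ) : ℝ)) ≤ m := by exact_mod_cast h3
  have h4' : (m : ℝ) + 1 ≤ 2 * ((m / 2 : ℤ) : ℝ) + 2 := by exact_mod_cast h4
  constructor <;> linarith

theorem floor_pow (n : ℕ) (r : ℝ) : ⌊(2 : ℝ) ^ n * r⌋ = ⌊(2 : ℝ) ^ (n + 1) * r⌋ / 2 := by
  rw [floor_half, pow_succ]
  ring_nf

theorem floor_eq_of_le {r r' : ℝ} {n : ℕ} (h : ⌊(2 : ℝ) ^ n * r⌋ = ⌊(2 : ℝ) ^ n * r'⌋) {i : ℕ}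
    (hi : i ≤ n) : ⌊(2 : ℝ) ^ i * r⌋ = ⌊(2 : ℝ) ^ i * r'⌋ := by
  induction n with
  | zero =>
    obtain rfl : i = 0 := by omega
    exact h
  | succ n ih =>
    rcases Nat.lt_or_ge n i with hlt | hle
    · obtain rfl : i = n + 1 := by omega
      exact h
    · exact ih (by rw [floor_pow n r, floor_pow n r', h]) hle

theorem pre_dg_eq {r r' : ℝ} {n : ℕ} (h : ⌊(2 : ℝ) ^ n * r⌋ = ⌊(2 : ℝ) ^ n * r'⌋) :
    pre (dg r) n = pre (dg r') n := by
  apply List.map_congr_left
  intro i hi
  rw [List.mem_range] at hi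
  rw [dg, dg, floor_eq_of_le h (i := i + 1) (by omega)]

theorem null_aux (D : Set ℕ) (hD : D.Infinite) (π : List Bool → Bool) (n0 : ℕ) :
    volume {r : ℝ | ∀ n, n0 ≤ n → n ∈ D → dg r n = π (pre (dg r) n)} = 0 := by
  set N := {r : ℝ | ∀ n, n0 ≤ n → n ∈ D → dg r n = π (pre (dg r) n)} with hN
  have hmeas : MeasurableSet N := by
    have h1 : N = ⋂ n : {n : ℕ // n0 ≤ n ∧ n ∈ D}, {r : ℝ | dg r n = π (pre (dg r) n)} := by
      ext r
      simp only [hN, Set.mem_ofPred_eq, Set.mem_iInter, Subtype.forall]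
      constructor
      · intro h n hn
        exact h n hn.1 hn.2
      · intro h n h1 h2
        exact h n ⟨h1, h2⟩
    rw [h1]
    refine MeasurableSet.iInter fun n => ?_
    have h2 : {r : ℝ | dg r n = π (pre (dg r) n)} =
        (fun r : ℝ => ⌊(2 : ℝ) ^ ((n : ℕ) + 1) * r⌋) ⁻¹'
          {k | ∃ r : ℝ, ⌊(2 : ℝ) ^ ((n : ℕ) + 1) * r⌋ = k ∧ dg r n = π (pre (dg r) n)} := by
      ext r
      simp only [Set.mem_ofPred_eq, Set.mem_preimage]
      constructor
      · intro h
        exact ⟨r, rfl, h⟩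
      · rintro ⟨r', h, h'⟩
        have h3 : ⌊(2 : ℝ) ^ (n : ℕ) * r'⌋ = ⌊(2 : ℝ) ^ (n : ℕ) * r⌋ :=
          floor_eq_of_le h (by omega)
        rw [← pre_dg_eq h3, ← h', dg, dg, h]
    rw [h2]
    have h4 : Measurable (fun r : ℝ => ⌊(2 : ℝ) ^ ((n : ℕ) + 1) * r⌋) :=
      Int.measurable_floor.comp (measurable_const.mul measurable_id)
    exact h4 (MeasurableSet.of_discrete)
  have hdens := IsUnifLocDoublingMeasure.ae_tendsto_measure_inter_div (volume : Measure ℝ) N 1
  have hmem := ae_restrict_mem (μ := (volume : Measure ℝ)) hmeas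
  have hfalse : ∀ᵐ x ∂(volume : Measure ℝ).restrict N, False := by
    filter_upwards [hdens, hmem] with x hx hxN
    have hne : (atTop ⊓ 𝓟 D : Filter ℕ).NeBot := by
      rw [← frequently_mem_iff_neBot]
      exact Nat.frequently_atTop_iff_infinite.2 hD
    have h2pos : ∀ n : ℕ, (0 : ℝ) < 2 ^ n := fun n => by positivity
    have hlim := hx (ι := ℕ) (l := atTop ⊓ 𝓟 D) (fun n => ((⌊(2 : ℝ) ^ n * x⌋ : ℝ) + 1 / 2) / 2 ^ n)
      (fun n => (1 / 2) / 2 ^ n) ?_ ?_
    · have hle : ∀ᶠ n in (atTop ⊓ 𝓟 D : Filter ℕ),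
          volume (N ∩ Metric.closedBall (((⌊(2 : ℝ) ^ n * x⌋ : ℝ) + 1 / 2) / 2 ^ n)
            ((1 / 2) / 2 ^ n)) / volume (Metric.closedBall
              (((⌊(2 : ℝ) ^ n * x⌋ : ℝ) + 1 / 2) / 2 ^ n) ((1 / 2) / 2 ^ n)) ≤ 1 / 2 := by
        rw [eventually_inf_principal]
        filter_upwards [eventually_ge_atTop n0] with n hn hnD
        set k := ⌊(2 : ℝ) ^ n * x⌋ with hk
        set c : ℝ := if π (pre (dg x) n) = true then 1 else 0 with hc
        have hsub : N ∩ Metric.closedBall (((k : ℝ) + 1 / 2) / 2 ^ n) ((1 / 2) / 2 ^ n) ⊆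
            Set.Icc ((2 * k + c) / 2 ^ (n + 1)) ((2 * k + c + 1) / 2 ^ (n + 1)) ∪
              {((k : ℝ) + 1) / 2 ^ n} := by
          rintro r ⟨hrN, hr⟩
          rw [Real.closedBall_eq_Icc, Set.mem_Icc, ← sub_div, ← add_div, div_le_iff₀ (h2pos n),
            le_div_iff₀ (h2pos n)] at hr
          obtain ⟨hr1, hr2⟩ := hr
          rcases eq_or_lt_of_le hr2 with heq | hlt
          · right
            rw [Set.mem_singleton_iff, eq_div_iff (h2pos n).ne']
            linarith
          · left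
            have hfl : ⌊(2 : ℝ) ^ n * r⌋ = k := by
              rw [Int.floor_eq_iff]
              constructor
              · linarith
              · linarith
            have hpre : pre (dg r) n = pre (dg x) n := pre_dg_eq (by rw [hfl])
            have hdig := hrN n hn hnD
            rw [hpre] at hdig
            have hdiv : k = ⌊(2 : ℝ) ^ (n + 1) * r⌋ / 2 := by rw [← floor_pow, hfl]
            have hfl' : (⌊(2 : ℝ) ^ (n + 1) * r⌋ : ℝ) = 2 * k + c := by
              rw [hc, ← hdig]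
              by_cases hd : ⌊(2 : ℝ) ^ (n + 1) * r⌋ % 2 = 1
              · have h1 : ⌊(2 : ℝ) ^ (n + 1) * r⌋ = 2 * k + 1 := by omega
                have h2 : dg r n = true := by rw [dg]; exact decide_eq_true hd
                rw [h2, h1]
                push_cast
                simp
              · have h1 : ⌊(2 : ℝ) ^ (n + 1) * r⌋ = 2 * k := by omega
                have h2 : dg r n = false := by rw [dg]; exact decide_eq_false hd
                rw [h2, h1]
                push_cast
                simp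
            have h5 := Int.floor_le ((2 : ℝ) ^ (n + 1) * r)
            have h6 := Int.lt_floor_add_one ((2 : ℝ) ^ (n + 1) * r)
            rw [hfl'] at h5 h6
            rw [Set.mem_Icc, div_le_iff₀ (h2pos _), le_div_iff₀ (h2pos _)]
            constructor <;> linarith
        have hvol : volume (N ∩ Metric.closedBall (((k : ℝ) + 1 / 2) / 2 ^ n) ((1 / 2) / 2 ^ n)) ≤
            ENNReal.ofReal (1 / 2 ^ (n + 1)) := by
          refine (measure_mono hsub).trans ((measure_union_le _ _).trans ?_)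
          rw [Real.volume_singleton, add_zero, Real.volume_Icc]
          apply le_of_eq
          congr 1
          ring
        rw [Real.volume_closedBall]
        refine ENNReal.div_le_of_le_mul (hvol.trans (le_of_eq ?_))
        have : (1 / 2 : ENNReal) = ENNReal.ofReal (1 / 2) := by
          rw [ENNReal.ofReal_div_of_pos (by norm_num)]
          simp
        rw [this, ← ENNReal.ofReal_mul (by norm_num)]
        congr 1
        rw [pow_succ]
        field_simp
      have h1 := le_of_tendsto hlim hle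
      have h2 : (1 / 2 : ENNReal) < 1 := by
        rw [one_div]
        exact ENNReal.inv_lt_one.2 (by norm_num)
      exact absurd h1 (not_le.2 h2)
    · refine Tendsto.mono_left ?_ inf_le_left
      rw [tendsto_nhdsWithin_iff]
      constructor
      · have := (tendsto_pow_atTop_nhds_zero_of_lt_one (r := (1 / 2 : ℝ)) (by norm_num)
          (by norm_num)).const_mul (1 / 2)
        rw [mul_zero] at this
        refine this.congr fun n => ?_
        rw [one_div, inv_pow]
        ring
      · filter_upwards with n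
        have := h2pos n
        rw [Set.mem_Ioi]
        positivity
    · filter_upwards with n
      have h5 := Int.floor_le ((2 : ℝ) ^ n * x)
      have h6 := Int.lt_floor_add_one ((2 : ℝ) ^ n * x)
      rw [one_mul, Real.closedBall_eq_Icc, Set.mem_Icc, ← sub_div, ← add_div,
        div_le_iff₀ (h2pos n), le_div_iff₀ (h2pos n)]
      constructor <;> linarith
  rw [eventually_false_iff_eq_bot, ae_eq_bot, Measure.restrict_eq_zero] at hfalse
  exact hfalse

theorem null (D : Set ℕ) (hD : D.Infinite) (π : List Bool → Bool) :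
    volume {r : ℝ | ∀ᶠ n in atTop, n ∈ D → dg r n = π (pre (dg r) n)} = 0 := by
  have : {r : ℝ | ∀ᶠ n in atTop, n ∈ D → dg r n = π (pre (dg r) n)} =
      ⋃ n0 : ℕ, {r : ℝ | ∀ n, n0 ≤ n → n ∈ D → dg r n = π (pre (dg r) n)} := by
    ext r
    simp only [Set.mem_ofPred_eq, Set.mem_iUnion, eventually_atTop]
  rw [this]
  exact measure_iUnion_null fun n0 => null_aux D hD π n0

/-- The digit sequences of a set of reals that is not null are not predicted. -/
theorem not_predicted_of_volume (X : Set ℝ) (hX : volume X ≠ 0) : ¬ Predicted (dg '' X) := by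
  rintro ⟨D, π, hD, h⟩
  apply hX
  refine measure_mono_null ?_ (null D hD π)
  intro r hr
  exact h _ ⟨r, hr, rfl⟩

theorem exists_not_predicted : ∃ Y : Set (ℕ → Bool), ¬ Predicted Y :=
  ⟨_, not_predicted_of_volume Set.univ (by simp)⟩

theorem eTwo_le_nonN : eTwo ≤ nonN := by
  apply le_csInf
  · exact ⟨_, Set.univ, by simp, rfl⟩
  · rintro _ ⟨X, hX, rfl⟩
    exact (csInf_le' (show #(dg '' X) ∈ {c | ∃ Y : Set (ℕ → Bool), ¬ Predicted Y ∧ #Y = c} from
      ⟨_, not_predicted_of_volume X hX, rfl⟩)).trans mk_image_le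

end Pool.Agent.Lib.MP_062a1c_lc.Zfc
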