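import Pool.Agent.Lib.MP_062a1c_lc.Zfc.Defs

/-!
# MP_062a1c_lc: the linear order of words, the pinched algebra, and the core argument
-/

namespace Pool.Agent.Lib.MP_062a1c_lc.Zfc

open Cardinal Filter

/-- The alphabet `A 0 < A 1 < ... < C 0 < C 1 < ... ... < E 1 < E 0`. -/
inductive Ltr
  | A (n : ℕ)
  | C (n : ℕ)
  | E (n : ℕ)

namespace Ltr

def key : Ltr → ℕ ×ₗ ℤ
  | A n => toLex (0, (n : ℤ))
  | C n => toLex (1, (n : ℤ))
  | E n => toLex (2, -(n : ℤ))

theorem key_inj : Function.Injective key := by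
  intro a b h
  cases a <;> cases b <;> simp_all [key]

noncomputable instance : LinearOrder Ltr := LinearOrder.lift' key key_inj

theorem lt_def {a b : Ltr} : a < b ↔ key a < key b := Iff.rfl

theorem A_lt_A {m n : ℕ} : A m < A n ↔ m < n := by
  rw [lt_def, key, key, Prod.Lex.toLex_lt_toLex]; simp
theorem C_lt_C {m n : ℕ} : C m < C n ↔ m < n := by
  rw [lt_def, key, key, Prod.Lex.toLex_lt_toLex]; simp
theorem E_lt_E {m n : ℕ} : E m < E n ↔ n < m := by
  rw [lt_def, key, key, Prod.Lex.toLex_lt_toLex]; simp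
theorem A_lt_C {m n : ℕ} : A m < C n := by
  rw [lt_def, key, key, Prod.Lex.toLex_lt_toLex]; simp
theorem A_lt_E {m n : ℕ} : A m < E n := by
  rw [lt_def, key, key, Prod.Lex.toLex_lt_toLex]; simp
theorem C_lt_E {m n : ℕ} : C m < E n := by
  rw [lt_def, key, key, Prod.Lex.toLex_lt_toLex]; simp

theorem A_zero_le (a : Ltr) : A 0 ≤ a := by
  cases a with
  | A n =>
    rcases Nat.eq_zero_or_pos n with rfl | h
    · exact le_rfl
    · exact (A_lt_A.2 h).le
  | C n => exact A_lt_C.le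
  | E n => exact A_lt_E.le

instance : Countable Ltr :=
  Function.Injective.countable (f := fun a => (ofLex (key a) : ℕ × ℤ))
    (fun a b h => key_inj (by exact ofLex.injective h))

end Ltr

/-- The letter `A (k+1)` (for `(false, k)`) or `E (k+1)` (for `(true, k)`). -/
def ltr : Bool × ℕ → Ltr
  | (false, k) => .A (k + 1)
  | (true, k) => .E (k + 1)

theorem ltr_ne (p : Bool × ℕ) : ltr p ≠ .A 0 := by
  rcases p with ⟨_ | _, k⟩ <;> simp [ltr]

theorem A_zero_lt_ltr (p : Bool × ℕ) : Ltr.A 0 < ltr p :=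
  lt_of_le_of_ne (Ltr.A_zero_le _) (ltr_ne p).symm

variable {X : Set (ℕ → Bool × ℕ)}

/-- The linear order: the words that are eventually `A 0`, and the words of the sequences in `X`,
ordered lexicographically. -/
@[ext]
structure Wd (X : Set (ℕ → Bool × ℕ)) : Type where
  /-- the underlying sequence of letters -/
  w : ℕ → Ltr
  /-- it is eventually `A 0` or comes from `X` -/
  ok : (∃ n, ∀ m, n ≤ m → w m = .A 0) ∨ ∃ x ∈ X, w = fun i => ltr (x i)

noncomputable instance : LinearOrder (Wd X) :=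
  LinearOrder.lift' (fun f : Wd X => toLex f.1) (fun _ _ h => Wd.ext h)

theorem Wd.lt_iff {f g : Wd X} : f < g ↔ ∃ n, (∀ i, i < n → f.1 i = g.1 i) ∧ f.1 n < g.1 n :=
  Iff.rfl

/-- `f` and `g` agree below `n`. -/
def Ag (n : ℕ) (f g : Wd X) : Prop := ∀ i, i < n → f.1 i = g.1 i

theorem Ag.symm {n : ℕ} {f g : Wd X} (h : Ag n f g) : Ag n g f := fun i hi => (h i hi).symm

theorem Ag.trans {n : ℕ} {f g k : Wd X} (h : Ag n f g) (h' : Ag n g k) : Ag n f k :=
  fun i hi => (h i hi).trans (h' i hi)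

theorem Ag.mono {m n : ℕ} {f g : Wd X} (h : Ag n f g) (hm : m ≤ n) : Ag m f g :=
  fun i hi => h i (lt_of_lt_of_le hi hm)

theorem Ag.refl (n : ℕ) (f : Wd X) : Ag n f f := fun _ _ => rfl

theorem lt_of_ag {n : ℕ} {f g : Wd X} (h : Ag n f g) (hl : f.1 n < g.1 n) : f < g :=
  Wd.lt_iff.2 ⟨n, h, hl⟩

/-- `u|n` followed by the letter `a` and then `A 0` forever. -/
def trl (n : ℕ) (u : Wd X) (a : Ltr) : Wd X :=
  ⟨fun i => if i < n then u.1 i else if i = n then a else .A 0,
    Or.inl ⟨n + 1, fun m hm => by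
      have h1 : ¬ m < n := by omega
      have h2 : ¬ m = n := by omega
      simp [h1, h2]⟩⟩

theorem trl_lt {n i : ℕ} {u : Wd X} {a : Ltr} (h : i < n) : (trl n u a).1 i = u.1 i := by
  simp [trl, h]

theorem trl_self {n : ℕ} {u : Wd X} {a : Ltr} : (trl n u a).1 n = a := by
  simp [trl]

theorem trl_gt {n i : ℕ} {u : Wd X} {a : Ltr} (h : n < i) : (trl n u a).1 i = .A 0 := by
  simp only [trl]
  rw [if_neg (by omega), if_neg (by omega)]

theorem ag_trl (n : ℕ) (u : Wd X) (a : Ltr) : Ag n (trl n u a) u := fun _ hi => trl_lt hi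

theorem trl_congr {n : ℕ} {u v : Wd X} (h : Ag n u v) (a : Ltr) : trl n u a = trl n v a := by
  apply Wd.ext
  funext i
  rcases lt_trichotomy i n with hi | rfl | hi
  · rw [trl_lt hi, trl_lt hi, h i hi]
  · rw [trl_self, trl_self]
  · rw [trl_gt hi, trl_gt hi]

/-- The word of a sequence in `X`. -/
def wd (x : ℕ → Bool × ℕ) (hx : x ∈ X) : Wd X := ⟨fun i => ltr (x i), Or.inr ⟨x, hx, rfl⟩⟩

theorem trl_lt_wd (x : ℕ → Bool × ℕ) (hx : x ∈ X) (n : ℕ) :
    trl n (wd x hx) ((wd x hx).1 n) < wd x hx := by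
  apply lt_of_ag (n := n + 1)
  · intro i hi
    rcases Nat.lt_succ_iff_lt_or_eq.1 hi with h | rfl
    · exact trl_lt h
    · exact trl_self
  · rw [trl_gt (Nat.lt_succ_self n)]
    exact A_zero_lt_ltr _

/-! ### Interval algebras and Boolean-closed properties -/

theorem iio_mem {L : Type*} [LinearOrder L] (a : L) : Set.Iio a ∈ IntAlg L := by
  have : Set.Iio a = hoi ⊥ (a : WithTop L) := by ext x; simp [hoi]
  rw [this]
  exact isFinUnion_hoi _ _

theorem intAlg_ind {L : Type*} [LinearOrder L] (P : Set L → Prop) (h0 : P ∅)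
    (hu : ∀ Y Z, P Y → P Z → P (Y ∪ Z)) (hc : ∀ Y, P Y → P Yᶜ) (hi : ∀ a, P (Set.Iio a)) :
    ∀ Y ∈ IntAlg L, P Y := by
  classical
  have hinter : ∀ Y Z, P Y → P Z → P (Y ∩ Z) := by
    intro Y Z hY hZ
    have := hc _ (hu _ _ (hc _ hY) (hc _ hZ))
    rwa [← Set.compl_inter, compl_compl] at this
  have huniv : P Set.univ := by
    have := hc _ h0
    rwa [Set.compl_empty] at this
  have h1 : ∀ a : WithBot L, P {x : L | a ≤ (x : WithBot L)} := by
    intro a
    induction a with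
    | bot =>
      have : {x : L | ⊥ ≤ (x : WithBot L)} = Set.univ := by ext x; simp
      rw [this]; exact huniv
    | coe a =>
      have : {x : L | (a : WithBot L) ≤ x} = (Set.Iio a)ᶜ := by ext x; simp
      rw [this]; exact hc _ (hi a)
  have h2 : ∀ b : WithTop L, P {x : L | (x : WithTop L) < b} := by
    intro b
    induction b with
    | top =>
      have : {x : L | (x : WithTop L) < ⊤} = Set.univ := by ext x; simp
      rw [this]; exact huniv
    | coe b =>
      have : {x : L | (x : WithTop L) < b} = Set.Iio b := by ext x; simp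
      rw [this]; exact hi b
  intro Y hY
  obtain ⟨s, rfl⟩ := hY
  induction s using Finset.induction_on with
  | empty => simpa using h0
  | insert p s _ ih =>
    rw [Finset.set_biUnion_insert]
    refine hu _ _ ?_ ih
    exact hinter _ _ (h1 p.1) (h2 p.2)

theorem sep {B : Type*} [BooleanAlgebra B] {L : Type*} [LinearOrder L] (e : B ≃o ↥(IntAlg L))
    (P : B → Prop) (h0 : P ⊥) (hu : ∀ a b, P a → P b → P (a ⊔ b)) (hc : ∀ a, P a → P aᶜ)
    (hi : ∀ a : L, P (e.symm ⟨Set.Iio a, iio_mem a⟩)) : ∀ b, P b := by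
  have key : ∀ Y ∈ IntAlg L, ∃ hY : Y ∈ IntAlg L, P (e.symm ⟨Y, hY⟩) := by
    refine intAlg_ind _ ⟨(IntAlg L).bot_mem', ?_⟩ ?_ ?_ ?_
    · have : e.symm ⟨∅, (IntAlg L).bot_mem'⟩ = ⊥ := by
        have h := map_bot e.symm
        rw [← h]; rfl
      rw [this]; exact h0
    · rintro Y Z ⟨hY, h1⟩ ⟨hZ, h2⟩
      refine ⟨(IntAlg L).supClosed' hY hZ, ?_⟩
      have h := hu _ _ h1 h2
      rw [← OrderIso.map_sup] at h
      exact h
    · rintro Y ⟨hY, h1⟩
      refine ⟨(IntAlg L).compl_mem' hY, ?_⟩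
      have h := hc _ h1
      rw [← map_compl'] at h
      exact h
    · intro a
      exact ⟨iio_mem a, hi a⟩
  intro b
  obtain ⟨hY, h⟩ := key (e b).1 (e b).2
  have : e.symm ⟨(e b).1, hY⟩ = b := by
    have h' : (⟨(e b).1, hY⟩ : ↥(IntAlg L)) = e b := rfl
    rw [h', OrderIso.symm_apply_apply]
  rwa [this] at h

/-! ### The pinched algebra -/

/-- `Y` has the constant value `p` at all words through the node `u|n` whose `n`-th letter has
index at least `g`. -/
def Cont (Y : Set (Wd X)) (n : ℕ) (u : Wd X) (g : ℕ) (p : Prop) : Prop :=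
  ∀ f : Wd X, Ag n f u → ∀ j, g ≤ j → (f.1 n = .A j ∨ f.1 n = .C j ∨ f.1 n = .E j) →
    (f ∈ Y ↔ p)

theorem Cont.compl {Y : Set (Wd X)} {n : ℕ} {u : Wd X} {g : ℕ} {p : Prop} (h : Cont Y n u g p) :
    Cont Yᶜ n u g (¬ p) := by
  intro f hf j hj hl
  rw [Set.mem_compl_iff, h f hf j hj hl]

theorem Cont.union {Y Z : Set (Wd X)} {n : ℕ} {u : Wd X} {g g' : ℕ} {p p' : Prop}
    (h : Cont Y n u g p) (h' : Cont Z n u g' p') : Cont (Y ∪ Z) n u (max g g') (p ∨ p') := by
  intro f hf j hj hl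
  rw [Set.mem_union, h f hf j (le_trans (le_max_left _ _) hj) hl,
    h' f hf j (le_trans (le_max_right _ _) hj) hl]

theorem Cont.inter {Y Z : Set (Wd X)} {n : ℕ} {u : Wd X} {g g' : ℕ} {p p' : Prop}
    (h : Cont Y n u g p) (h' : Cont Z n u g' p') : Cont (Y ∩ Z) n u (max g g') (p ∧ p') := by
  intro f hf j hj hl
  rw [Set.mem_inter_iff, h f hf j (le_trans (le_max_left _ _) hj) hl,
    h' f hf j (le_trans (le_max_right _ _) hj) hl]

/-- The subalgebra of all elements of the interval algebra of `Wd X` that are continuous at every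
node point. -/
def Alg (X : Set (ℕ → Bool × ℕ)) : BooleanSubalgebra ↥(IntAlg (Wd X)) where
  carrier := {Y | ∀ (n : ℕ) (u : Wd X), ∃ (g : ℕ) (p : Prop), Cont Y.1 n u g p}
  supClosed' := by
    intro Y hY Z hZ n u
    obtain ⟨g, p, h⟩ := hY n u
    obtain ⟨g', p', h'⟩ := hZ n u
    exact ⟨_, _, h.union h'⟩
  infClosed' := by
    intro Y hY Z hZ n u
    obtain ⟨g, p, h⟩ := hY n u
    obtain ⟨g', p', h'⟩ := hZ n u
    exact ⟨_, _, h.inter h'⟩
  compl_mem' := by
    intro Y hY n u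
    obtain ⟨g, p, h⟩ := hY n u
    exact ⟨_, _, h.compl⟩
  bot_mem' := by
    intro n u
    refine ⟨0, False, fun f _ j _ _ => ?_⟩
    simp

/-- `Iio` of the word of `x` is continuous at every node. -/
theorem cont_iio (x : ℕ → Bool × ℕ) (hx : x ∈ X) (n : ℕ) (u : Wd X) :
    ∃ (g : ℕ) (p : Prop), Cont (Set.Iio (wd x hx)) n u g p := by
  classical
  by_cases hag : Ag n (wd x hx) u
  · have hn : (wd x hx).1 n = ltr (x n) := rfl
    rcases hxn : x n with ⟨b, k⟩
    rw [hxn] at hn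
    cases b with
    | false =>
      refine ⟨k + 2, False, fun f hf j hj hl => ?_⟩
      simp only [ltr] at hn
      rw [Set.mem_Iio, iff_false, not_lt]
      refine (lt_of_ag (hag.trans hf.symm) ?_).le
      rw [hn]
      rcases hl with h | h | h
      · rw [h]; exact Ltr.A_lt_A.2 (by omega)
      · rw [h]; exact Ltr.A_lt_C
      · rw [h]; exact Ltr.A_lt_E
    | true =>
      refine ⟨k + 2, True, fun f hf j hj hl => ?_⟩
      simp only [ltr] at hn
      rw [Set.mem_Iio, iff_true]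
      refine lt_of_ag (hf.trans hag.symm) ?_
      rw [hn]
      rcases hl with h | h | h
      · rw [h]; exact Ltr.A_lt_E
      · rw [h]; exact Ltr.C_lt_E
      · rw [h]; exact Ltr.E_lt_E.2 (by omega)
  · -- first difference below `n`
    have hex : ∃ i, i < n ∧ (wd x hx).1 i ≠ u.1 i := by
      by_contra h
      push Not at h
      exact hag fun i hi => h i hi
    obtain ⟨i, ⟨hin, hne⟩, hmin⟩ : ∃ i, (i < n ∧ (wd x hx).1 i ≠ u.1 i) ∧
        ∀ j, j < i → ¬ (j < n ∧ (wd x hx).1 j ≠ u.1 j) :=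
      ⟨Nat.find hex, Nat.find_spec hex, fun j hj => Nat.find_min hex hj⟩
    have hagi : Ag i (wd x hx) u := by
      intro j hj
      by_contra h
      exact hmin j hj ⟨lt_trans hj hin, h⟩
    refine ⟨0, u.1 i < (wd x hx).1 i, fun f hf j _ _ => ?_⟩
    rw [Set.mem_Iio]
    constructor
    · intro hlt
      by_contra hnl
      have hlt' : (wd x hx).1 i < u.1 i := lt_of_le_of_ne (not_lt.1 hnl) hne
      have : wd x hx < f := lt_of_ag (hagi.trans (hf.mono hin.le).symm) (by rw [hf i hin]; exact hlt')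
      exact lt_asymm this hlt
    · intro hlt
      exact lt_of_ag ((hf.mono hin.le).trans hagi.symm) (by rw [hf i hin]; exact hlt)

theorem iio_mem_alg (x : ℕ → Bool × ℕ) (hx : x ∈ X) :
    (⟨Set.Iio (wd x hx), iio_mem _⟩ : ↥(IntAlg (Wd X))) ∈ Alg X :=
  fun n u => cont_iio x hx n u

/-- The cone of the words through `u|n ⌢ C 0`. -/
def coneC (n : ℕ) (u : Wd X) : Set (Wd X) := {f | Ag n f u ∧ f.1 n = .C 0}

theorem coneC_eq (n : ℕ) (u : Wd X) :
    coneC n u = hoi ((trl n u (.C 0) : Wd X) : WithBot (Wd X))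
      ((trl n u (.C 1) : Wd X) : WithTop (Wd X)) := by
  ext f
  simp only [coneC, hoi, Set.mem_ofPred_eq, WithBot.coe_le_coe, WithTop.coe_lt_coe]
  constructor
  · rintro ⟨hf, hn⟩
    constructor
    · by_contra h
      rw [not_le] at h
      obtain ⟨m, hm, hlt⟩ := Wd.lt_iff.1 h
      rcases lt_trichotomy m n with hmn | rfl | hmn
      · rw [trl_lt hmn, hf m hmn] at hlt; exact lt_irrefl _ hlt
      · rw [trl_self, hn] at hlt; exact lt_irrefl _ hlt
      · rw [trl_gt hmn] at hlt; exact absurd (Ltr.A_zero_le _) (not_le.2 hlt)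
    · refine lt_of_ag (hf.trans (ag_trl _ _ _).symm) ?_
      rw [hn, trl_self]; exact Ltr.C_lt_C.2 Nat.zero_lt_one
  · rintro ⟨h1, h2⟩
    obtain ⟨m, hm, hlt⟩ := Wd.lt_iff.1 h2
    have key : ¬ ∃ i, i < n ∧ (∀ j, j < i → f.1 j = u.1 j) ∧ f.1 i < u.1 i := by
      rintro ⟨i, hin, hj, hl⟩
      have : f < trl n u (.C 0) := by
        refine lt_of_ag (n := i) (fun j hj' => ?_) ?_
        · rw [trl_lt (lt_trans hj' hin)]; exact hj j hj'
        · rw [trl_lt hin]; exact hl
      exact absurd h1 (not_le.2 this)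
    rcases lt_trichotomy m n with hmn | rfl | hmn
    · exfalso
      apply key
      refine ⟨m, hmn, fun j hj => ?_, ?_⟩
      · rw [hm j hj, trl_lt (lt_trans hj hmn)]
      · rwa [trl_lt hmn] at hlt
    · have hag : Ag m f u := fun i hi => by rw [hm i hi, trl_lt hi]
      refine ⟨hag, ?_⟩
      rw [trl_self] at hlt
      by_contra hne
      have hlt0 : f.1 m < .C 0 := by
        rcases hfm : f.1 m with a | a | a
        · exact Ltr.A_lt_C
        · rw [hfm] at hlt hne
          rw [Ltr.C_lt_C] at hlt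
          have : a = 0 := by omega
          exact absurd (by rw [this]) hne
        · rw [hfm] at hlt
          exact absurd hlt (not_lt.2 Ltr.C_lt_E.le)
      have : f < trl m u (.C 0) := by
        refine lt_of_ag (hag.trans (ag_trl _ _ _).symm) ?_
        rw [trl_self]; exact hlt0
      exact absurd h1 (not_le.2 this)
    · rw [trl_gt hmn] at hlt
      exact absurd (Ltr.A_zero_le _) (not_le.2 hlt)

theorem coneC_mem (n : ℕ) (u : Wd X) : coneC n u ∈ IntAlg (Wd X) := by
  rw [coneC_eq]; exact isFinUnion_hoi _ _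

theorem cont_coneC (n : ℕ) (u : Wd X) (m : ℕ) (v : Wd X) :
    ∃ (g : ℕ) (p : Prop), Cont (coneC n u) m v g p := by
  rcases lt_trichotomy m n with hmn | rfl | hmn
  · -- the letter of `u` at `m` has some index
    obtain ⟨a, ha⟩ : ∃ a, u.1 m = .A a ∨ u.1 m = .C a ∨ u.1 m = .E a := by
      rcases u.1 m with a | a | a
      · exact ⟨a, Or.inl rfl⟩
      · exact ⟨a, Or.inr (Or.inl rfl)⟩
      · exact ⟨a, Or.inr (Or.inr rfl)⟩
    refine ⟨a + 1, False, fun f _ j hj hl => ?_⟩
    rw [iff_false]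
    rintro ⟨hfu, -⟩
    rw [hfu m hmn] at hl
    rcases ha with h | h | h <;> rw [h] at hl <;> simp at hl <;> omega
  · refine ⟨1, False, fun f _ j hj hl => ?_⟩
    rw [iff_false]
    rintro ⟨-, hn⟩
    rw [hn] at hl
    simp at hl
    omega
  · refine ⟨0, Ag n v u ∧ v.1 n = .C 0, fun f hf j _ _ => ?_⟩
    simp only [coneC, Set.mem_ofPred_eq]
    have h1 : f.1 n = v.1 n := hf n hmn
    have h2 : Ag n f v := hf.mono hmn.le
    constructor
    · rintro ⟨h, h'⟩; exact ⟨h2.symm.trans h, by rw [← h1]; exact h'⟩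
    · rintro ⟨h, h'⟩; exact ⟨h2.trans h, by rw [h1]; exact h'⟩

/-- Localisation: near `x` an element of the interval algebra only depends on the side. -/
theorem loc (x : Wd X) : ∀ Y ∈ IntAlg (Wd X), ∃ (n : ℕ) (l r : Prop),
    ∀ f, Ag n f x → (f < x → (f ∈ Y ↔ l)) ∧ (x ≤ f → (f ∈ Y ↔ r)) := by
  apply intAlg_ind
  · exact ⟨0, False, False, fun f _ => ⟨fun _ => by simp, fun _ => by simp⟩⟩
  · rintro Y Z ⟨n, l, r, h⟩ ⟨n', l', r', h'⟩
    refine ⟨max n n', l ∨ l', r ∨ r', fun f hf => ?_⟩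
    obtain ⟨h1, h2⟩ := h f (hf.mono (le_max_left _ _))
    obtain ⟨h1', h2'⟩ := h' f (hf.mono (le_max_right _ _))
    refine ⟨fun hlt => ?_, fun hle => ?_⟩
    · rw [Set.mem_union, h1 hlt, h1' hlt]
    · rw [Set.mem_union, h2 hle, h2' hle]
  · rintro Y ⟨n, l, r, h⟩
    refine ⟨n, ¬ l, ¬ r, fun f hf => ?_⟩
    obtain ⟨h1, h2⟩ := h f hf
    refine ⟨fun hlt => ?_, fun hle => ?_⟩
    · rw [Set.mem_compl_iff, h1 hlt]
    · rw [Set.mem_compl_iff, h2 hle]
  · intro e
    rcases lt_trichotomy e x with hlt | rfl | hlt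
    · obtain ⟨m, hm, hl⟩ := Wd.lt_iff.1 hlt
      have key : ∀ f : Wd X, Ag (m + 1) f x → ¬ f < e := by
        intro f hf
        rw [not_lt]
        refine (lt_of_ag (n := m) (fun i hi => ?_) ?_).le
        · rw [hm i hi, hf i (by omega)]
        · rw [hf m (by omega)]; exact hl
      refine ⟨m + 1, False, False, fun f hf => ⟨fun _ => ?_, fun _ => ?_⟩⟩
      · rw [Set.mem_Iio, iff_false]; exact key f hf
      · rw [Set.mem_Iio, iff_false]; exact key f hf
    · refine ⟨0, True, False, fun f _ => ⟨fun h => ?_, fun h => ?_⟩⟩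
      · rw [Set.mem_Iio, iff_true]; exact h
      · rw [Set.mem_Iio, iff_false]; exact not_lt.2 h
    · obtain ⟨m, hm, hl⟩ := Wd.lt_iff.1 hlt
      have key : ∀ f : Wd X, Ag (m + 1) f x → f < e := by
        intro f hf
        refine lt_of_ag (n := m) (fun i hi => ?_) ?_
        · rw [← hm i hi, hf i (by omega)]
        · rw [hf m (by omega)]; exact hl
      refine ⟨m + 1, True, True, fun f hf => ⟨fun _ => ?_, fun _ => ?_⟩⟩
      · rw [Set.mem_Iio, iff_true]; exact key f hf
      · rw [Set.mem_Iio, iff_true]; exact key f hf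

end Pool.Agent.Lib.MP_062a1c_lc.Zfc
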